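import Pool.Agent.Q278.DP.TAN

/-! JOB MOV of project DP. -/

set_option autoImplicit false
set_option linter.unusedSectionVars false

namespace Pool.Agent.Q278.DP

open MvPolynomial FF Pool.Agent.W603.LV Pool.Agent.TH145.GH Pool.Agent.Y166.DP Pool.Agent.Q35.DP

section
variable {k K : Type} [Field k] [Field K] [Algebra k K]

theorem der_mul' (D : Derivation ℤ K K) (a b : K) : D (a * b) = a * D b + b * D a := by
  rw [D.leibniz]; simp

theorem der_pow' (D : Derivation ℤ K K) (a : K) (n : ℕ) : D (a ^ n) = n * a ^ (n - 1) * D a := by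
  rw [D.leibniz_pow]; simp [mul_assoc]

theorem ker_mul (D : Derivation ℤ K K) {a b : K} (ha : D a = 0) (hb : D b = 0) :
    D (a * b) = 0 := by
  rw [der_mul', ha, hb]; simp

theorem ker_inv (D : Derivation ℤ K K) {a : K} (ha : D a = 0) : D a⁻¹ = 0 := by
  by_cases h0 : a = 0
  · rw [h0]; simp
  have h1 : D (a * a⁻¹) = 0 := by
    rw [mul_inv_cancel₀ h0]; exact D.map_one_eq_zero
  rw [der_mul', ha, mul_zero, add_zero] at h1
  exact (mul_eq_zero.1 h1).resolve_left h0

theorem ker_div (D : Derivation ℤ K K) {a b : K} (ha : D a = 0) (hb : D b = 0) :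
    D (a / b) = 0 := by
  rw [div_eq_mul_inv]
  exact ker_mul D ha (ker_inv D hb)

theorem ker_pow (D : Derivation ℤ K K) {a : K} (ha : D a = 0) (n : ℕ) : D (a ^ n) = 0 := by
  rw [der_pow', ha]; simp

theorem ker_num (D : Derivation ℤ K K) (n : ℕ) [n.AtLeastTwo] :
    D (OfNat.ofNat n : K) = 0 := by
  rw [← Nat.cast_ofNat]
  exact D.map_natCast _

/-- The height of a constant point is `0`. -/
theorem ht_const {ι : Type} [Finite ι] [CharZero k] [IsFF k K] [IsAlgClosed k] (f : K) (c : ι → k) :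
    ht k (fun i => f * algebraMap k K (c i)) = 0 := by
  by_cases hc : c = 0
  · have : (fun i => f * algebraMap k K (c i)) = (0 : ι → K) := by
      funext i; rw [hc]; simp
    rw [this]
    exact ht_zero' k ι
  by_cases hf : f = 0
  · have : (fun i => f * algebraMap k K (c i)) = (0 : ι → K) := by
      funext i; rw [hf]; simp
    rw [this]
    exact ht_zero' k ι
  obtain ⟨i, hi⟩ := Function.ne_iff.1 hc
  have hi' : algebraMap k K (c i) ≠ 0 := (map_ne_zero _).2 hi
  have hg : (fun i => algebraMap k K (c i)) ≠ (0 : ι → K) := fun h => hi' (congrFun h i)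
  rw [ht_smul hg hf]
  unfold ht
  have : ∀ P : Place k K, mo P (fun i => algebraMap k K (c i)) = 0 := by
    intro P
    have h0 : P.ord (algebraMap k K (c i)) = 0 := P.ord_const hi
    have := mo_eq P (g := fun i => algebraMap k K (c i)) (i := i) hi' (by
      intro j
      change Ge P (P.ord (algebraMap k K (c i))) (algebraMap k K (c j))
      rw [h0]
      exact Ge.const (c j))
    rw [this]
    exact h0
  simp [this]

end

theorem mov : StmMov := by
  intro k K _ _ _ _ _ _ τ a ω ha hω hτ hω0 ha0 u hu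
  haveI : CharZero K := charZero_of_injective_algebraMap (algebraMap k K).injective
  have m2 : algebraMap k K 2 = 2 := map_ofNat (algebraMap k K) 2
  have m3 : algebraMap k K 3 = 3 := map_ofNat (algebraMap k K) 3
  have m6 : algebraMap k K 6 = 6 := map_ofNat (algebraMap k K) 6
  obtain ⟨T, hTd⟩ : ∃ T, T = algebraMap k K τ := ⟨_, rfl⟩
  obtain ⟨W, hWd⟩ : ∃ W, W = algebraMap k K ω := ⟨_, rfl⟩
  obtain ⟨A, hAd⟩ : ∃ A, A = algebraMap k K a := ⟨_, rfl⟩
  have hT : T ≠ 0 := by rw [hTd]; exact (map_ne_zero _).2 hτ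
  have hW0 : W ≠ 0 := by rw [hWd]; exact (map_ne_zero _).2 hω0
  have hA0 : A ≠ 0 := by rw [hAd]; exact (map_ne_zero _).2 ha0
  have hA : A ^ 4 = -(1 + T ^ 4) := by
    have := congrArg (algebraMap k K) ha
    simp only [map_pow, map_mul, map_neg, map_add, map_one] at this
    rw [hAd, hTd]; exact this
  have hW : W ^ 2 = -2 * (T ^ 8 + T ^ 4 + 1) := by
    have := congrArg (algebraMap k K) hω
    simp only [map_pow, map_mul, map_neg, map_add, map_one, m2] at this
    rw [hWd, hTd]; exact this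
  have e1 : algebraMap k K (3 * τ / ω) = 3 * T / W := by
    rw [map_div₀, map_mul, m3, hTd, hWd]
  have e2 : algebraMap k K ((-2 * (τ ^ 4 - 1) + ω) / (6 * τ)) = (-2 * (T ^ 4 - 1) + W) / (6 * T) := by
    rw [map_div₀]; simp only [map_pow, map_mul, map_neg, map_add, map_sub, map_one, m2, m6, hTd, hWd]
  have e4 : algebraMap k K (τ ^ 3) = T ^ 3 := by rw [map_pow, hTd]
  obtain ⟨t, ht'⟩ : ∃ t, t = (u 1 - u 0) * (3 * T / W) := ⟨_, rfl⟩
  obtain ⟨s, hs⟩ : ∃ s, s = u 0 + (-2 * (T ^ 4 - 1) + W) / (6 * T) * t := ⟨_, rfl⟩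
  have g0 : gg τ a ω u 0 = s + T ^ 3 * t := by rw [gg0, e1, e2, e4, hs, ht']
  have g1 : gg τ a ω u 1 = T * s - t := by rw [gg1, e1, e2, hs, ht', hTd]
  have g2 : gg τ a ω u 2 = A * s := by rw [gg2, e1, e2, hs, ht', hAd]
  -- `t ≠ 0`
  have ht0 : t ≠ 0 := by
    intro h
    rw [ht'] at h
    have h3 : (3 * T / W : K) ≠ 0 := div_ne_zero (mul_ne_zero (by norm_num) hT) hW0
    have h4 : u 1 = u 0 := sub_eq_zero.1 ((mul_eq_zero.1 h).resolve_right h3)
    have h5 : u = fun i => u 0 * algebraMap k K ((fun _ : Fin 2 => (1 : k)) i) := by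
      funext i
      fin_cases i
      · simp
      · simpa using h4
    have h6 : ht k (fun i => u 0 * algebraMap k K ((fun _ : Fin 2 => (1 : k)) i)) = 0 :=
      ht_const (u 0) (fun _ : Fin 2 => (1 : k))
    rw [← h5] at h6
    omega
  have hu0 : u 0 = s - (-2 * (T ^ 4 - 1) + W) / (6 * T) * t := by rw [hs]; ring
  have hu1 : u 1 = u 0 + W / (3 * T) * t := by
    rw [ht']; field_simp; ring
  have hlift : ∀ (D : Derivation ℤ k k) (D' : Derivation ℤ K K), Lifts D D' → D τ = 0 →
      D' T = 0 ∧ D' A = 0 ∧ D' W = 0 := by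
    intro D D' hl h0
    have hT' : D' T = 0 := by rw [hTd, hl, h0, map_zero]
    refine ⟨hT', ?_, ?_⟩
    · have h1 := congrArg D' hA
      rw [der_pow', map_neg, map_add, D'.map_one_eq_zero, ker_pow D' hT'] at h1
      simp only [add_zero, neg_zero] at h1
      have h2 : ((4 : ℕ) : K) * A ^ (4 - 1) ≠ 0 := mul_ne_zero (by norm_num) (pow_ne_zero _ hA0)
      exact (mul_eq_zero.1 h1).resolve_left h2
    · have h1 := congrArg D' hW
      rw [der_pow', der_mul', map_add, map_add, D'.map_one_eq_zero, ker_pow D' hT',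
        ker_pow D' hT', map_neg, ker_num D' 2] at h1
      simp only [add_zero, neg_zero, mul_zero] at h1
      have h2 : ((2 : ℕ) : K) * W ^ (2 - 1) ≠ 0 := mul_ne_zero (by norm_num) (pow_ne_zero _ hW0)
      exact (mul_eq_zero.1 h1).resolve_left h2
  constructor
  · intro D D' hl hg
    have q0 := hg 0
    have q1 := hg 1
    have q2 := hg 2
    rw [g0] at q0
    rw [g1] at q1
    rw [g2] at q2
    rw [map_add, der_mul', der_pow'] at q0
    rw [map_sub, der_mul'] at q1
    rw [der_mul'] at q2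
    have rA := congrArg D' hA
    rw [der_pow', map_neg, map_add, D'.map_one_eq_zero, der_pow'] at rA
    norm_num at q0 q1 q2 rA
    -- `-3 T ^ 2 t D T = 0`
    have key : T ^ 2 * t * D' T = 0 := by
      have h1 : (3 : K) * (T ^ 2 * t * D' T) = 0 := by
        linear_combination q0 + T ^ 3 * q1 + A ^ 3 * q2 - (s / 4) * rA - D' s * hA
      have h3 : (3 : K) ≠ 0 := by norm_num
      exact (mul_eq_zero.1 h1).resolve_left h3
    have hDT : D' T = 0 :=
      (mul_eq_zero.1 key).resolve_left (mul_ne_zero (pow_ne_zero _ hT) ht0)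
    have hDτ : D τ = 0 := by
      rw [hTd, hl] at hDT
      exact (map_eq_zero _).1 hDT
    obtain ⟨_, dA, dW⟩ := hlift D D' hl hDτ
    refine ⟨hDτ, ?_⟩
    have dS : D' s = 0 := by
      rw [dA, mul_zero, add_zero] at q2
      exact (mul_eq_zero.1 q2).resolve_left hA0
    have dt : D' t = 0 := by
      rw [dS, hDT] at q1
      simpa using q1
    have d0 : D' (u 0) = 0 := by
      rw [hu0, map_sub, der_mul', dt, dS]
      have : D' ((-2 * (T ^ 4 - 1) + W) / (6 * T)) = 0 := by
        apply ker_div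
        · rw [map_add, dW, add_zero]
          apply ker_mul
          · rw [map_neg, ker_num D' 2, neg_zero]
          · rw [map_sub, ker_pow D' hDT, D'.map_one_eq_zero, sub_zero]
        · exact ker_mul D' (ker_num D' 6) hDT
      rw [this]; ring
    have d1 : D' (u 1) = 0 := by
      rw [hu1, map_add, d0, der_mul', dt]
      have : D' (W / (3 * T)) = 0 := ker_div D' dW (ker_mul D' (ker_num D' 3) hDT)
      rw [this]; ring
    intro i
    fin_cases i
    · exact d0
    · exact d1
  · intro D₁ D₂ D₁' D₂' hl1 hl2 hn1 hz2 hu0' hu1' hu1n hdet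
    obtain ⟨dT, dA, dW⟩ := hlift D₂ D₂' hl2 hz2
    unfold Pool.Agent.Y166.DP.wr at hdet
    obtain ⟨v, hv0, hv⟩ := Matrix.exists_vecMul_eq_zero_iff.2 hdet
    have hvi : ∀ i, v 0 * gg τ a ω u i + v 1 * D₁' (gg τ a ω u i) + v 2 * D₂' (gg τ a ω u i) = 0 := by
      intro i
      have := congrFun hv i
      simpa [Matrix.vecMul, dotProduct, Fin.sum_univ_three] using this
    have q0 := hvi 0
    have q1 := hvi 1
    have q2 := hvi 2
    rw [g0] at q0
    rw [g1] at q1
    rw [g2] at q2
    have rA := congrArg D₁' hA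
    rw [der_pow', map_neg, map_add, D₁'.map_one_eq_zero, der_pow'] at rA
    simp only [map_add, map_sub, der_mul', der_pow', dT, dA] at q0 q1 q2
    norm_num at q0 q1 q2 rA
    have hn : D₁' T ≠ 0 := by
      rw [hTd, hl1]
      exact (map_ne_zero _).2 hn1
    have hv1 : v 1 = 0 := by
      have h1 : v 1 * (3 * T ^ 2 * t * D₁' T) = 0 := by
        linear_combination q0 + T ^ 3 * q1 + A ^ 3 * q2 - (v 1 * s / 4) * rA -
          (v 0 * s + v 1 * D₁' s + v 2 * D₂' s) * hA
      exact (mul_eq_zero.1 h1).resolve_right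
        (mul_ne_zero (mul_ne_zero (mul_ne_zero (by norm_num) (pow_ne_zero _ hT)) ht0) hn)
    rw [hv1] at q0 q1 q2
    have r2 : v 0 * s + v 2 * D₂' s = 0 := by
      have : A * (v 0 * s + v 2 * D₂' s) = 0 := by linear_combination q2
      exact (mul_eq_zero.1 this).resolve_left hA0
    have r1 : v 0 * t + v 2 * D₂' t = 0 := by linear_combination T * r2 - q1
    have dρ : D₂' ((-2 * (T ^ 4 - 1) + W) / (6 * T)) = 0 := by
      apply ker_div
      · rw [map_add, dW, add_zero]
        apply ker_mul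
        · rw [map_neg, ker_num D₂' 2, neg_zero]
        · rw [map_sub, ker_pow D₂' dT, D₂'.map_one_eq_zero, sub_zero]
      · exact ker_mul D₂' (ker_num D₂' 6) dT
    have dκ : D₂' (W / (3 * T)) = 0 := ker_div D₂' dW (ker_mul D₂' (ker_num D₂' 3) dT)
    have r0 : v 0 * u 0 + v 2 * D₂' (u 0) = 0 := by
      have h := congrArg D₂' hu0
      rw [map_sub, der_mul', dρ] at h
      rw [h, hu0]
      linear_combination r2 - (-2 * (T ^ 4 - 1) + W) / (6 * T) * r1
    have r3 : v 0 * u 1 + v 2 * D₂' (u 1) = 0 := by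
      have h := congrArg D₂' hu1
      rw [map_add, der_mul', dκ] at h
      rw [h, hu1]
      linear_combination r0 + W / (3 * T) * r1
    rw [hu1', mul_zero, add_zero] at r3
    have hv0' : v 0 = 0 := (mul_eq_zero.1 r3).resolve_right hu1n
    rw [hv0', zero_mul, zero_add] at r0
    have hv2 : v 2 = 0 := (mul_eq_zero.1 r0).resolve_right hu0'
    apply hv0
    funext i
    fin_cases i
    · exact hv0'
    · exact hv1
    · exact hv2

end Pool.Agent.Q278.DP
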