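import Pool.Agent.Q35.DP.Plan

/-! JOB TAN of project DP. -/

set_option autoImplicit false
set_option linter.unusedSectionVars false

namespace Pool.Agent.Q278.DP

open MvPolynomial FF Pool.Agent.W603.LV Pool.Agent.TH145.GH Pool.Agent.Y166.DP Pool.Agent.Q35.DP

section
variable {k K : Type} [Field k] [Field K] [Algebra k K]

/-- `w` is a linear combination of the `g i`. -/
def Cb {ι : Type} (g : ι → K) (w : K) : Prop :=
  ∃ a : ι → k, w = ∑ᶠ i, algebraMap k K (a i) * g i

theorem Cb.self {ι : Type} [Fintype ι] (g : ι → K) (i : ι) : Cb (k := k) g (g i) := by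
  classical
  refine ⟨Pi.single i 1, ?_⟩
  rw [finsum_eq_sum_of_fintype]
  rw [Finset.sum_eq_single i]
  · simp
  · intro j _ hj
    simp [Pi.single_eq_of_ne hj]
  · intro h
    exact absurd (Finset.mem_univ i) h

theorem Cb.add {ι : Type} [Fintype ι] {g : ι → K} {w v : K} (hw : Cb (k := k) g w)
    (hv : Cb (k := k) g v) : Cb (k := k) g (w + v) := by
  obtain ⟨a, rfl⟩ := hw
  obtain ⟨b, rfl⟩ := hv
  refine ⟨fun i => a i + b i, ?_⟩
  simp only [finsum_eq_sum_of_fintype]
  rw [← Finset.sum_add_distrib]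
  refine Finset.sum_congr rfl fun i _ => ?_
  rw [map_add]
  ring

theorem Cb.cmul {ι : Type} [Fintype ι] {g : ι → K} {w : K} (hw : Cb (k := k) g w)
    (c : k) : Cb (k := k) g (algebraMap k K c * w) := by
  obtain ⟨a, rfl⟩ := hw
  refine ⟨fun i => c * a i, ?_⟩
  simp only [finsum_eq_sum_of_fintype]
  rw [Finset.mul_sum]
  refine Finset.sum_congr rfl fun i _ => ?_
  rw [map_mul]
  ring

theorem gg0 (τ a ω : k) (u : Fin 2 → K) : gg τ a ω u 0 =
    (u 0 + algebraMap k K ((-2 * (τ ^ 4 - 1) + ω) / (6 * τ)) *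
      ((u 1 - u 0) * algebraMap k K (3 * τ / ω))) + algebraMap k K (τ ^ 3) *
      ((u 1 - u 0) * algebraMap k K (3 * τ / ω)) := rfl

theorem gg1 (τ a ω : k) (u : Fin 2 → K) : gg τ a ω u 1 =
    algebraMap k K τ * (u 0 + algebraMap k K ((-2 * (τ ^ 4 - 1) + ω) / (6 * τ)) *
      ((u 1 - u 0) * algebraMap k K (3 * τ / ω))) - ((u 1 - u 0) * algebraMap k K (3 * τ / ω)) := rfl

theorem gg2 (τ a ω : k) (u : Fin 2 → K) : gg τ a ω u 2 =
    algebraMap k K a * (u 0 + algebraMap k K ((-2 * (τ ^ 4 - 1) + ω) / (6 * τ)) *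
      ((u 1 - u 0) * algebraMap k K (3 * τ / ω))) := rfl

/-- The identity in variables. -/
theorem quart_id {F : Type} [Field F] [CharZero F] {T W A s t u₀ u₁ : F}
    (hT : T ≠ 0)
    (hA : A ^ 4 = -(1 + T ^ 4)) (hW : W ^ 2 = -2 * (T ^ 8 + T ^ 4 + 1))
    (h0 : 6 * T * u₀ = 6 * T * s - (-2 * (T ^ 4 - 1) + W) * t)
    (h1 : 3 * T * (u₁ - u₀) = W * t) :
    (s + T ^ 3 * t) ^ 4 + (T * s - t) ^ 4 + (A * s) ^ 4 =
      6 * T ^ 2 * (1 + T ^ 4) * t ^ 2 * u₀ * u₁ := by
  have h6 : 6 * T * u₁ = 6 * T * s - (-2 * (T ^ 4 - 1) - W) * t := by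
    linear_combination h0 + 2 * h1
  have hp : 36 * T ^ 2 * (u₀ * u₁) = (6 * T * s - (-2 * (T ^ 4 - 1) + W) * t) *
      (6 * T * s - (-2 * (T ^ 4 - 1) - W) * t) := by
    rw [← h0, ← h6]; ring
  have hc : (36 * T ^ 2 : F) ≠ 0 := mul_ne_zero (by norm_num) (pow_ne_zero _ hT)
  apply mul_left_cancel₀ hc
  linear_combination (36 * T ^ 2 * s ^ 4) * hA - (6 * T ^ 2 * (1 + T ^ 4) * t ^ 2) * hp +
    (6 * T ^ 2 * (1 + T ^ 4) * t ^ 4) * hW

end

theorem ht_zero' (k : Type) {K : Type} [Field k] [Field K] [Algebra k K] (ι : Type) :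
    ht k (0 : ι → K) = 0 := by
  unfold ht
  simp [mo_zero]

theorem tan : StmTan := by
  intro k K _ _ _ _ _ _ τ a ω ha hω hτ hω0 ha0 u
  haveI : CharZero K := charZero_of_injective_algebraMap (algebraMap k K).injective
  have m2 : algebraMap k K 2 = 2 := map_ofNat (algebraMap k K) 2
  have m3 : algebraMap k K 3 = 3 := map_ofNat (algebraMap k K) 3
  have m6 : algebraMap k K 6 = 6 := map_ofNat (algebraMap k K) 6
  set T := algebraMap k K τ with hTd
  set W := algebraMap k K ω with hWd
  set A := algebraMap k K a with hAd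
  have hT : T ≠ 0 := by
    rw [hTd]; exact (map_ne_zero _).2 hτ
  have hW0 : W ≠ 0 := by
    rw [hWd]; exact (map_ne_zero _).2 hω0
  have hA0 : A ≠ 0 := by
    rw [hAd]; exact (map_ne_zero _).2 ha0
  have hA : A ^ 4 = -(1 + T ^ 4) := by
    have := congrArg (algebraMap k K) ha
    simpa using this
  have hW : W ^ 2 = -2 * (T ^ 8 + T ^ 4 + 1) := by
    have := congrArg (algebraMap k K) hω
    simp only [map_pow, map_mul, map_neg, map_add, map_one, m2] at this
    exact this
  have e1 : algebraMap k K (3 * τ / ω) = 3 * T / W := by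
    rw [map_div₀, map_mul, m3]
  have e2 : algebraMap k K ((-2 * (τ ^ 4 - 1) + ω) / (6 * τ)) = (-2 * (T ^ 4 - 1) + W) / (6 * T) := by
    rw [map_div₀]; simp only [map_pow, map_mul, map_neg, map_add, map_sub, map_one, m2, m6]; rfl
  have e3 : algebraMap k K (6 * τ ^ 2 * (1 + τ ^ 4)) = 6 * T ^ 2 * (1 + T ^ 4) := by
    simp only [map_pow, map_mul, map_add, map_one, m6]; rfl
  have e4 : algebraMap k K (τ ^ 3) = T ^ 3 := by simp [hTd]
  constructor
  · unfold quart
    rw [gg0, gg1, gg2, e1, e2, e3, e4]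
    have := quart_id (T := T) (W := W) (A := A) (u₀ := u 0) (u₁ := u 1)
      (s := u 0 + (-2 * (T ^ 4 - 1) + W) / (6 * T) * ((u 1 - u 0) * (3 * T / W)))
      (t := (u 1 - u 0) * (3 * T / W)) hT hA hW (by field_simp; ring) (by field_simp)
    rw [← hTd, ← hAd]
    rw [this]
  · set g := gg τ a ω u with hg
    set t := (u 1 - u 0) * algebraMap k K (3 * τ / ω) with ht'
    set s := u 0 + algebraMap k K ((-2 * (τ ^ 4 - 1) + ω) / (6 * τ)) * t with hs
    have g0 : g 0 = s + algebraMap k K (τ ^ 3) * t := rfl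
    have g1 : g 1 = algebraMap k K τ * s - t := rfl
    have g2 : g 2 = algebraMap k K a * s := rfl
    have hs2 : s = algebraMap k K a⁻¹ * g 2 := by
      rw [g2, map_inv₀, inv_mul_cancel_left₀]
      exact hA0
    have ht2 : t = algebraMap k K τ * s + algebraMap k K (-1) * g 1 := by
      rw [g1, map_neg, map_one]; ring
    have hu0 : u 0 = s + algebraMap k K (-((-2 * (τ ^ 4 - 1) + ω) / (6 * τ))) * t := by
      rw [hs, map_neg]; ring
    have hu1 : u 1 = u 0 + algebraMap k K (ω / (3 * τ)) * t := by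
      rw [ht', e1, map_div₀, map_mul, ← hTd, ← hWd]
      rw [m3]
      field_simp
      ring
    have cs : Cb (k := k) g s := by rw [hs2]; exact (Cb.self g 2).cmul _
    have ct : Cb (k := k) g t := by rw [ht2]; exact (cs.cmul _).add ((Cb.self g 1).cmul _)
    have cu0 : Cb (k := k) g (u 0) := by rw [hu0]; exact cs.add (ct.cmul _)
    have cu1 : Cb (k := k) g (u 1) := by rw [hu1]; exact cu0.add (ct.cmul _)
    have dt : Cb (k := k) u t := by
      have : t = algebraMap k K (3 * τ / ω) * (u 1 + algebraMap k K (-1) * u 0) := by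
        rw [ht', map_neg, map_one]; ring
      rw [this]
      exact ((Cb.self u 1).add ((Cb.self u 0).cmul _)).cmul _
    have ds : Cb (k := k) u s := by rw [hs]; exact (Cb.self u 0).add (dt.cmul _)
    have dg0 : Cb (k := k) u (g 0) := by rw [g0]; exact ds.add (dt.cmul _)
    have dg1 : Cb (k := k) u (g 1) := by
      have : g 1 = algebraMap k K τ * s + algebraMap k K (-1) * t := by
        rw [g1, map_neg, map_one]; ring
      rw [this]; exact (ds.cmul _).add (dt.cmul _)
    have dg2 : Cb (k := k) u (g 2) := by rw [g2]; exact ds.cmul _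
    by_cases hu : u = 0
    · have hg0 : g = 0 := by
        have q0 : u 0 = 0 := by rw [hu]; rfl
        have q1 : u 1 = 0 := by rw [hu]; rfl
        have qt : t = 0 := by rw [ht', q0, q1]; ring
        have qs : s = 0 := by rw [hs, q0, qt]; ring
        funext i
        fin_cases i
        · change g 0 = 0
          rw [g0, qs, qt]; ring
        · change g 1 = 0
          rw [g1, qs, qt]; ring
        · change g 2 = 0
          rw [g2, qs]; ring
      rw [hg0, hu, ht_zero', ht_zero']
    · have hg0 : g ≠ 0 := by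
        intro h
        apply hu
        have qs : s = 0 := by rw [hs2, h]; simp
        have qt : t = 0 := by rw [ht2, h, qs]; simp
        have q0 : u 0 = 0 := by rw [hu0, qs, qt]; ring
        have q1 : u 1 = 0 := by rw [hu1, q0, qt]; ring
        funext i
        fin_cases i
        · exact q0
        · exact q1
      apply le_antisymm
      · apply ht_le_of_comb hg0
        intro j
        fin_cases j
        · exact dg0
        · exact dg1
        · exact dg2
      · apply ht_le_of_comb hu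
        intro j
        fin_cases j
        · exact cu0
        · exact cu1

end Pool.Agent.Q278.DP
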